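import Pool.Agent.Helper31.GGen
import Pool.Agent.Helper7.GD1
import Pool.Agent.Helper13.GGood

/-!
# Genericity: one choice of the parameters makes all diagonal blocks of all patterns nonsingular
-/

set_option autoImplicit false
open Pool.Agent.MP7c5cdb Pool.Agent.Helper31.GGen

namespace Pool.Agent.Helper7.GPat

variable {D : Des} {G : Type} [AddCommGroup G] {Row : Type} [Fintype Row] [DecidableEq Row]

namespace Pat

/-- Is the column a loser? -/
def LCol (T : Pat D G Row) : D.Col → Prop
  | .inl _ => False
  | .inr (.inl c) => T.Loser c
  | .inr (.inr _) => False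

omit [Fintype Row] [DecidableEq Row] in
/-- 0 or 1: does the row see the position? -/
noncomputable def sn (T : Pat D G Row) (r : Row) (p : D.Pos) : ℂ :=
  match T.see r p with
  | none => 0
  | some _ => 1

/-- coefficient of an entry -/
noncomputable def sg (T : Pat D G Row) (r : Row) : D.Col → ℂ
  | .inl v => T.sn r (.inl v.1)
  | .inr (.inl c) =>
      if T.Loser c then 2 * (Real.pi : ℂ) * Complex.I * T.sn r (.inl (D.comp c.1))
      else T.sn r (.inr (.inl c.1)) - T.sn r (.inl (D.comp c.1))
  | .inr (.inr c) => T.sn r (.inr (.inr c.1))

omit [Fintype Row] [DecidableEq Row] in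
lemma cent_eq {T : Pat D G Row} {r : Row} {p : D.Pos}
    (h : T.see r p = none ∨ T.see r p = some (0, T.num r)) (t : ℝ) :
    cent (T.see r p) t = T.sn r p * ee (t * (T.num r : ℝ)) := by
  unfold cent sn
  rcases h with h | h <;> simp [h]

omit [Fintype Row] [DecidableEq Row] in
lemma cquo_eq {T : Pat D G Row} {r : Row} {p : D.Pos}
    (h : T.see r p = none ∨ T.see r p = some (0, T.num r)) (t : ℝ) :
    cquo (T.see r p) t = 2 * (Real.pi : ℂ) * Complex.I * T.sn r p * ((T.num r : ℂ) *
      ee (t * (T.num r : ℝ))) := by
  unfold cquo sn
  rcases h with h | h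
  · simp [h]
  · simp only [h, mul_one]
    ring

omit [Fintype Row] [DecidableEq Row] in
lemma root_alt {T : Pat D G Row} {r : Row} {j : Fin D.k} (h : T.lab r = .inr j) (j' : Fin D.k) :
    T.see r (.inl j') = none ∨ T.see r (.inl j') = some (0, T.num r) := by
  rw [T.top_root r j j' h]
  by_cases h1 : j' = j <;> simp [h1]

omit [Fintype Row] [DecidableEq Row] in
lemma sn_root {T : Pat D G Row} {r : Row} {j : Fin D.k} (h : T.lab r = .inr j) :
    T.sn r (.inl j) = 1 := by
  unfold sn
  rw [T.top_root r j j h, if_pos rfl]

/-- Entries of the base matrix inside a block. -/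
lemma base_eq (T : Pat D G Row) (θ : D.Var → ℝ) {r : Row} {c : D.Col} (h : T.rlab r = T.blab c) :
    T.base θ r c = T.sg r c * ((open scoped Classical in if T.LCol c then (T.num r : ℂ) else 1) *
      ee (θ (D.var c) * (T.num r : ℝ))) := by
  rcases c with v | c | c
  · obtain ⟨j, hj⟩ := T.lab_of_last (r := r) h
    simp only [base, sg, LCol, if_false, one_mul, Des.var]
    exact cent_eq (root_alt hj v.1) _
  · by_cases hL : T.Loser c
    · simp only [blab, hL, if_true] at h
      obtain ⟨j, hj⟩ := T.lab_of_last (r := r) h
      simp only [base, sg, LCol, hL, if_true, Des.var]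
      rw [T.top_grp r j c.1 hj]
      exact cquo_eq (root_alt hj (D.comp c.1)) _
    · simp only [blab, hL, if_false] at h
      simp only [base, sg, LCol, hL, if_false, one_mul, Des.var]
      rcases T.see_of_eq h with ⟨h1, h2⟩ | ⟨h1, h2⟩
      · rw [cent_eq (Or.inr h1), cent_eq (Or.inl h2), sub_mul]
      · rw [cent_eq (Or.inl h1), cent_eq (Or.inr h2), sub_mul]
  · obtain ⟨j, hj⟩ := T.lab_of_last (r := r) h
    simp only [base, sg, LCol, if_false, one_mul, Des.var]
    exact cent_eq (T.top_link r j c.1 hj) _

/-- **Row D2.** Genericity, without any condition on the relative position of the rows. -/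
theorem exists_theta {I : Type} [Finite I] (T : I → Pat D G Row) (σ : I → (D.Col ≃ Row))
    (blk : ∀ i c, (T i).rlab (σ i c) = (T i).blab c)
    (main : ∀ i (v : D.Main), (T i).lab (σ i (.inl v)) = .inr v.1)
    (loser : ∀ i (c : D.Grp), (T i).Loser c →
      (T i).lab (σ i (.inr (.inl c))) = .inr (D.comp c.1))
    (link : ∀ i (c : D.Lnk), (T i).see (σ i (.inr (.inr c))) (.inr (.inr c.1)) ≠ none)
    (num_grp : ∀ i g r r', (T i).lab r = .inl g → (T i).lab r' = .inl g →
      (T i).num r = (T i).num r' → r = r')
    (num_top : ∀ i j j' r r', (T i).lab r = .inr j → (T i).lab r' = .inr j' →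
      (T i).num r = (T i).num r' → r = r') :
    ∃ θ : D.Var → ℝ, ∀ i a, ((Matrix.of fun c c' => (T i).base θ (σ i c) c').toSquareBlock
      (T i).blab a).det ≠ 0 := by
  classical
  -- rows of one block have distinct numbers
  have hnum : ∀ i (r r' : Row), (T i).rlab r = (T i).rlab r' → (T i).num r = (T i).num r' →
      r = r' := by
    intro i r r' h hn
    unfold rlab at h
    cases h1 : (T i).lab r with
    | inl g =>
      cases h2 : (T i).lab r' with
      | inl g' =>
        rw [h1, h2] at h
        have hg : g = g' := by simpa using h
        subst hg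
        exact num_grp i g r r' h1 h2 hn
      | inr j =>
        rw [h1, h2] at h
        exact absurd h (Fin.castSucc_lt_last g).ne
    | inr j =>
      cases h2 : (T i).lab r' with
      | inl g' =>
        rw [h1, h2] at h
        exact absurd h.symm (Fin.castSucc_lt_last g').ne
      | inr j' => exact num_top i j j' r r' h1 h2 hn
  let F : Fam D.Var (I × Fin (D.Γ + 1)) :=
    { C := fun x => {c : D.Col // (T x.1).blab c = x.2}
      fin := fun x => inferInstance
      var := fun x c => D.var c.1
      der := fun x c => (T x.1).LCol c.1
      m := fun x c => (T x.1).num (σ x.1 c.1)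
      s := fun x a c => (T x.1).sg (σ x.1 a.1) c.1
      diag := by
        rintro ⟨i, b⟩ ⟨c, hc⟩
        simp only
        rcases c with v | c | c
        · simp only [sg]
          rw [sn_root (main i v)]
          exact one_ne_zero
        · by_cases hL : (T i).Loser c
          · simp only [sg, hL, if_true]
            rw [sn_root (loser i c hL), mul_one]
            exact Complex.two_pi_I_ne_zero
          · simp only [sg, hL, if_false]
            have h1 := blk i (.inr (.inl c))
            simp only [blab, hL, if_false] at h1
            rcases (T i).see_of_eq h1 with ⟨h2, h3⟩ | ⟨h2, h3⟩ <;> simp [sn, h2, h3]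
        · simp only [sg, sn]
          have h1 := link i c
          cases h2 : (T i).see (σ i (.inr (.inr c))) (.inr (.inr c.1)) with
          | none => exact absurd h2 h1
          | some q => exact one_ne_zero
      inj := by
        rintro ⟨i, b⟩ ⟨c, hc⟩ ⟨a, ha⟩ ⟨a', ha'⟩ - - hm
        simp only at hm
        have h1 : σ i a = σ i a' := hnum i _ _ (by rw [blk, blk, ha, ha']) hm
        exact Subtype.ext ((σ i).injective h1)
      col := by
        rintro ⟨i, b⟩ ⟨c, hc⟩ ⟨c', hc'⟩ hv hd
        simp only at hv hd
        apply Subtype.ext
        simp only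
        have hcc : (T i).blab c = (T i).blab c' := hc.trans hc'.symm
        have key : ∀ e e' : D.Grp, (T i).blab (.inr (.inl e)) = (T i).blab (.inr (.inl e')) →
            D.mainOf e = D.mainOf e' → e = e' := by
          intro e e' hb hm
          have hfst : e.1 = e'.1 := by
            by_cases h1 : (T i).Loser e
            · by_cases h2 : (T i).Loser e'
              · exact D.spec_inj e.1 e'.1 e.2 e'.2 h1.1 h2.1 hm
              · simp only [blab, h1, h2, if_true, if_false] at hb
                exact absurd hb.symm (Fin.castSucc_lt_last e'.1).ne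
            · by_cases h2 : (T i).Loser e'
              · simp only [blab, h1, h2, if_true, if_false] at hb
                exact absurd hb (Fin.castSucc_lt_last e.1).ne
              · simp only [blab, h1, h2, if_false] at hb
                simpa using hb
          obtain ⟨g, a⟩ := e
          obtain ⟨g', a'⟩ := e'
          simp only at hfst
          subst hfst
          simp only [Des.mainOf, Sigma.mk.injEq, heq_eq_eq, true_and] at hm
          rw [D.iota_inj g hm]
        rcases c with v | c | c <;> rcases c' with v' | c' | c'
        · simp only [Des.var, Sum.inl.injEq] at hv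
          rw [hv]
        · exfalso
          simp only [LCol, false_iff] at hd
          simp only [blab, hd, if_false] at hcc
          exact absurd hcc.symm (Fin.castSucc_lt_last c'.1).ne
        · simp [Des.var] at hv
        · exfalso
          simp only [LCol, iff_false] at hd
          simp only [blab, hd, if_false] at hcc
          exact absurd hcc (Fin.castSucc_lt_last c.1).ne
        · simp only [Des.var, Sum.inl.injEq] at hv
          rw [key c c' hcc hv]
        · simp [Des.var] at hv
        · simp [Des.var] at hv
        · simp [Des.var] at hv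
        · simp only [Des.var, Sum.inr.injEq] at hv
          rw [hv]
      base := by
        rintro ⟨i, b⟩ ⟨c, hc⟩ hd
        simp only at hd
        rcases c with v | c | c
        · exact absurd hd id
        · have hL : (T i).Loser c := hd
          have hb : b = Fin.last _ := by
            have hc' : (T i).blab (.inr (.inl c)) = b := hc
            rw [← hc']
            simp [blab, hL]
          refine ⟨⟨.inl (D.mainOf c), ?_⟩, ?_, ?_, 2 * (Real.pi : ℂ) * Complex.I, ?_⟩
          · rw [hb]
            rfl
          · simp [LCol]
          · rfl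
          · rintro ⟨a, ha⟩
            simp only [sg, hL, if_true, Des.mainOf]
        · exact absurd hd id }
  obtain ⟨θ, hθ⟩ := F.exists_theta
  refine ⟨θ, fun i a => ?_⟩
  have h1 := hθ (i, a)
  have h2 : ((Matrix.of fun c c' => (T i).base θ (σ i c) c').toSquareBlock (T i).blab a) =
      F.mat θ (i, a) := by
    refine Matrix.ext fun c c' => ?_
    have h3 : (T i).rlab (σ i c.1) = (T i).blab c'.1 := by rw [blk, c.2, c'.2]
    have h4 := (T i).base_eq θ h3
    simp only [Matrix.toSquareBlock_def, Matrix.of_apply]
    rw [h4]
    rfl
  rw [h2]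
  have h5 : ∀ (C : Type) (d1 d2 : DecidableEq C) (f1 f2 : Fintype C) (M : Matrix C C ℂ),
      @Matrix.det C d1 f1 ℂ _ M = @Matrix.det C d2 f2 ℂ _ M := by
    intro C d1 d2 f1 f2 M
    cases Subsingleton.elim d1 d2
    cases Subsingleton.elim f1 f2
    rfl
  intro h0
  exact h1 ((h5 _ _ _ _ _ _).trans h0)

/-- Row D2 for adapted bijections. -/
theorem exists_theta_of_good {I : Type} [Finite I] (T : I → Pat D G Row) (σ : I → (D.Col ≃ Row))
    (hgood : ∀ i, Good (T i) (σ i))
    (num_grp : ∀ i g r r', (T i).lab r = .inl g → (T i).lab r' = .inl g →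
      (T i).num r = (T i).num r' → r = r')
    (num_top : ∀ i j j' r r', (T i).lab r = .inr j → (T i).lab r' = .inr j' →
      (T i).num r = (T i).num r' → r = r') :
    ∃ θ : D.Var → ℝ, ∀ i a, ((Matrix.of fun c c' => (T i).base θ (σ i c) c').toSquareBlock
      (T i).blab a).det ≠ 0 :=
  exists_theta T σ (fun i => (hgood i).blk) (fun i => (hgood i).main) (fun i => (hgood i).loser)
    (fun i c => by rw [(hgood i).link c]; exact Option.some_ne_none _) num_grp num_top

end Pat

end Pool.Agent.Helper7.GPat
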