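import Pool.Agent.MP_7c5cdb.Defs

set_option autoImplicit false
open Pool.Agent.MP7c5cdb Polynomial
open scoped Classical

namespace Pool.Agent.Helper31.GGen

lemma ee_mul_int (t : ℝ) (n : ℤ) : ee (t * (n : ℝ)) = ee t ^ n := by
  unfold ee
  rw [← Complex.exp_int_mul]
  congr 1
  push_cast
  ring

/-- Wronskians of non-proportional polynomials, with the operator `k - N` on coefficients. -/
lemma wr_ne_zero (N : ℂ) {F Fs H Hs : ℂ[X]} (hF : ∀ k : ℕ, Fs.coeff k = ((k : ℂ) - N) * F.coeff k)
    (hH : ∀ k : ℕ, Hs.coeff k = ((k : ℂ) - N) * H.coeff k) (hF0 : F ≠ 0) {l : ℕ}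
    (hl : F.coeff l = 0) (hl' : H.coeff l ≠ 0) : F * Hs - Fs * H ≠ 0 := by
  have deg : ∀ {A As : ℂ[X]}, (∀ k : ℕ, As.coeff k = ((k : ℂ) - N) * A.coeff k) →
      As.natDegree ≤ A.natDegree := by
    intro A As hA
    rw [natDegree_le_iff_coeff_eq_zero]
    intro k hk
    rw [hA, coeff_eq_zero_of_natDegree_lt hk, mul_zero]
  set c : ℂ := H.coeff F.natDegree / F.leadingCoeff with hc
  set H' : ℂ[X] := H - C c * F with hH'
  set Hs' : ℂ[X] := Hs - C c * Fs with hHs'
  have e1 : F * Hs - Fs * H = F * Hs' - Fs * H' := by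
    rw [hH', hHs']
    ring
  have hs : ∀ k : ℕ, Hs'.coeff k = ((k : ℂ) - N) * H'.coeff k := by
    intro k
    rw [hH', hHs', coeff_sub, coeff_sub, coeff_C_mul, coeff_C_mul, hH, hF]
    ring
  have hne : H' ≠ 0 := by
    intro h0
    apply hl'
    have : H'.coeff l = 0 := by rw [h0, coeff_zero]
    rw [hH', coeff_sub, coeff_C_mul, hl, mul_zero, sub_zero] at this
    exact this
  have hz : H'.coeff F.natDegree = 0 := by
    rw [hH', coeff_sub, coeff_C_mul, hc, coeff_natDegree, div_mul_cancel₀, sub_self]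
    exact leadingCoeff_ne_zero.mpr hF0
  have hnd : F.natDegree ≠ H'.natDegree := by
    intro h
    rw [h] at hz
    exact hne (leadingCoeff_eq_zero.mp hz)
  rw [e1]
  intro h0
  have h1 : (F * Hs' - Fs * H').coeff (F.natDegree + H'.natDegree) = 0 := by
    rw [h0, coeff_zero]
  rw [coeff_sub, coeff_mul_add_eq_of_natDegree_le le_rfl (deg hs),
    coeff_mul_add_eq_of_natDegree_le (deg hF) le_rfl, hs, hF] at h1
  have h2 : F.coeff F.natDegree ≠ 0 := leadingCoeff_ne_zero.mpr hF0
  have h3 : H'.coeff H'.natDegree ≠ 0 := leadingCoeff_ne_zero.mpr hne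
  have h4 : ((H'.natDegree : ℂ) - F.natDegree) * (F.coeff F.natDegree * H'.coeff H'.natDegree) = 0 := by
    rw [← h1]
    ring
  rcases mul_eq_zero.mp h4 with h5 | h5
  · apply hnd
    have : (H'.natDegree : ℂ) = F.natDegree := sub_eq_zero.mp h5
    exact_mod_cast this.symm
  · exact (mul_ne_zero h2 h3) h5

/-- A finite family of nonzero polynomials has a common non-root `e(t)`. -/
lemma exists_eval_ne {ι : Type*} [Finite ι] (P : ι → ℂ[X]) (hP : ∀ i, P i ≠ 0) :
    ∃ t : ℝ, ∀ i, (P i).eval (ee t) ≠ 0 := by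
  have := Fintype.ofFinite ι
  have hQ : (∏ i, P i) ≠ 0 := Finset.prod_ne_zero_iff.mpr fun i _ => hP i
  have hinf : Set.Infinite (Set.range (fun n : ℕ => ee (1 / ((n : ℝ) + 2)))) := by
    apply Set.infinite_range_of_injective
    intro a b hab
    simp only [ee] at hab
    rw [Complex.exp_eq_exp_iff_exists_int] at hab
    obtain ⟨n, hn⟩ := hab
    have h2 : (2 * (Real.pi : ℂ) * Complex.I) ≠ 0 := Complex.two_pi_I_ne_zero
    have h3 : (((1 / ((a : ℝ) + 2) : ℝ)) : ℂ) = ((1 / ((b : ℝ) + 2) : ℝ) : ℂ) + n := by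
      apply mul_left_cancel₀ h2
      rw [hn]
      ring
    have h4 : (1 / ((a : ℝ) + 2) : ℝ) = 1 / ((b : ℝ) + 2) + n := by exact_mod_cast h3
    have ha : (0 : ℝ) < (a : ℝ) + 2 := by positivity
    have hb : (0 : ℝ) < (b : ℝ) + 2 := by positivity
    have ha1 : 1 / ((a : ℝ) + 2) < 1 := by
      rw [div_lt_one ha]
      have : (0 : ℝ) ≤ a := Nat.cast_nonneg a
      linarith
    have hb1 : 1 / ((b : ℝ) + 2) < 1 := by
      rw [div_lt_one hb]
      have : (0 : ℝ) ≤ b := Nat.cast_nonneg b
      linarith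
    have ha0 : 0 < 1 / ((a : ℝ) + 2) := by positivity
    have hb0 : 0 < 1 / ((b : ℝ) + 2) := by positivity
    have hn0 : n = 0 := by
      have h5 : (n : ℝ) < 1 := by linarith
      have h6 : (-1 : ℝ) < n := by linarith
      have h7 : n < 1 := by exact_mod_cast h5
      have h8 : -1 < n := by exact_mod_cast h6
      omega
    rw [hn0, Int.cast_zero, add_zero, div_eq_div_iff ha.ne' hb.ne', one_mul, one_mul] at h4
    have h9 : (b : ℝ) = a := by linarith
    exact_mod_cast h9.symm
  have hfin : Set.Finite {z : ℂ | (∏ i, P i).eval z = 0} := by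
    have := (∏ i, P i).rootSet_finite ℂ
    refine this.subset ?_
    intro z hz
    rw [mem_rootSet]
    refine ⟨hQ, ?_⟩
    rw [coe_aeval_eq_eval]
    exact hz
  obtain ⟨z, ⟨n, rfl⟩, hz⟩ := hinf.exists_notMem_finite hfin
  refine ⟨1 / ((n : ℝ) + 2), fun i hi => hz ?_⟩
  simp only [Set.mem_ofPred_eq, eval_prod]
  exact Finset.prod_eq_zero (Finset.mem_univ i) hi

lemma vecMul_app {C : Type*} [Fintype C] (l : C → ℂ) (M : Matrix C C ℂ) (c : C) :
    Matrix.vecMul l M c = ∑ a, l a * M a c := rfl

section one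

variable {C : Type*} [Fintype C] (m : C → ℤ)

/-- shift making all exponents natural numbers -/
def sh : ℕ := ∑ a, (m a).natAbs

/-- shifted exponents -/
def nu (a : C) : ℕ := (m a + sh m).toNat

lemma nu_cast (a : C) : (nu m a : ℤ) = m a + sh m := by
  unfold nu
  rw [Int.toNat_of_nonneg]
  have h1 : (m a).natAbs ≤ sh m :=
    Finset.single_le_sum (f := fun a => (m a).natAbs) (fun _ _ => Nat.zero_le _) (Finset.mem_univ a)
  omega

/-- The polynomial of an exponential sum. -/
noncomputable def poly (w : C → ℂ) : ℂ[X] := ∑ a, Polynomial.C (w a) * X ^ (nu m a)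

lemma poly_coeff (w : C → ℂ) (k : ℕ) :
    (poly m w).coeff k = ∑ a, if k = nu m a then w a else 0 := by
  unfold poly
  rw [finsetSum_coeff]
  exact Finset.sum_congr rfl fun a _ => by rw [coeff_C_mul_X_pow]

lemma poly_eval (w : C → ℂ) (t : ℝ) :
    (poly m w).eval (ee t) = ee t ^ (sh m) * ∑ a, w a * ee (t * (m a : ℝ)) := by
  unfold poly
  rw [eval_finsetSum, Finset.mul_sum]
  refine Finset.sum_congr rfl fun a _ => ?_
  rw [eval_mul, eval_C, eval_pow, eval_X, ee_mul_int]
  have h1 : ee t ^ (nu m a) = ee t ^ (sh m) * ee t ^ (m a) := by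
    rw [← zpow_natCast, nu_cast, zpow_add₀ (ee_ne_zero t), zpow_natCast, mul_comm]
  rw [h1]
  ring

lemma poly_mul_coeff (w : C → ℂ) (k : ℕ) :
    (poly m (fun a => w a * (m a : ℂ))).coeff k = ((k : ℂ) - (sh m : ℂ)) * (poly m w).coeff k := by
  rw [poly_coeff, poly_coeff, Finset.mul_sum]
  refine Finset.sum_congr rfl fun a _ => ?_
  by_cases h : k = nu m a
  · rw [if_pos h, if_pos h, h]
    have h1 : ((nu m a : ℤ) : ℂ) = ((m a + sh m : ℤ) : ℂ) := by rw [nu_cast]
    have h2 : ((nu m a : ℕ) : ℂ) = (m a : ℂ) + (sh m : ℂ) := by exact_mod_cast h1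
    rw [h2]
    ring
  · rw [if_neg h, if_neg h, mul_zero]

/-- coefficient at a good exponent -/
lemma poly_coeff_eq (w : C → ℂ) (c : C) (h : ∀ a, w a ≠ 0 → m a = m c → a = c) :
    (poly m w).coeff (nu m c) = w c := by
  rw [poly_coeff, Finset.sum_eq_single c]
  · simp
  · intro b _ hb
    by_cases h0 : nu m c = nu m b
    · rw [if_pos h0]
      by_contra h1
      apply hb
      apply h b h1
      have e1 := nu_cast m b
      have e2 := nu_cast m c
      rw [h0] at e2
      omega
    · rw [if_neg h0]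
  · intro h1
    exact absurd (Finset.mem_univ c) h1

end one

/-- A family of square matrices of exponential type. -/
structure Fam (V : Type) (ι : Type) where
  C : ι → Type
  fin : ∀ i, Fintype (C i)
  var : ∀ i, C i → V
  der : ∀ i, C i → Prop
  m : ∀ i, C i → ℤ
  s : ∀ i, C i → C i → ℂ
  diag : ∀ i c, s i c c ≠ 0
  inj : ∀ i c a b, s i a c ≠ 0 → s i b c ≠ 0 → m i a = m i b → a = b
  col : ∀ i c c', var i c = var i c' → (der i c ↔ der i c') → c = c'
  base : ∀ i c, der i c → ∃ c0, ¬ der i c0 ∧ var i c0 = var i c ∧ ∃ κ : ℂ, ∀ a, s i a c = κ * s i a c0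

namespace Fam

variable {V ι : Type} (F : Fam V ι)

instance (i : ι) : Fintype (F.C i) := F.fin i

/-- the matrices -/
noncomputable def mat (θ : V → ℝ) (i : ι) : Matrix (F.C i) (F.C i) ℂ :=
  Matrix.of fun a c => F.s i a c * ((if F.der i c then (F.m i a : ℂ) else 1) *
    ee (θ (F.var i c) * (F.m i a : ℝ)))

/-- the mixed matrices -/
noncomputable def mx (S : Finset V) (θ : V → ℝ) (i : ι) : Matrix (F.C i) (F.C i) ℂ :=
  Matrix.of fun a c => if F.var i c ∈ S then F.mat θ i a c else if a = c then 1 else 0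

lemma mx_update_of_ne (S : Finset V) (θ : V → ℝ) (i : ι) {v : V} (hv : v ∉ S) (t : ℝ) (a c : F.C i)
    (hc : F.var i c ≠ v) :
    F.mx (insert v S) (Function.update θ v t) i a c = F.mx S θ i a c := by
  unfold mx mat
  simp only [Matrix.of_apply, Finset.mem_insert, hc, false_or, Function.update_of_ne hc]

lemma mx_update_of_eq (S : Finset V) (θ : V → ℝ) (i : ι) {v : V} (t : ℝ) (a c : F.C i)
    (hc : F.var i c = v) :
    F.mx (insert v S) (Function.update θ v t) i a c =
      F.s i a c * ((if F.der i c then (F.m i a : ℂ) else 1) * ee (t * (F.m i a : ℝ))) := by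
  unfold mx mat
  simp only [Matrix.of_apply, Finset.mem_insert, hc, true_or, if_true, Function.update_self]

lemma mx_of_eq (S : Finset V) (θ : V → ℝ) (i : ι) {v : V} (hv : v ∉ S) (a c : F.C i)
    (hc : F.var i c = v) : F.mx S θ i a c = if a = c then 1 else 0 := by
  unfold mx
  simp only [Matrix.of_apply, hc, hv, if_false]

/-- One step for one matrix. -/
lemma step_one (S : Finset V) (θ : V → ℝ) (i : ι) {v : V} (hv : v ∉ S)
    (hdet : (F.mx S θ i).det ≠ 0) : ∃ P : ℂ[X], P ≠ 0 ∧ ∀ t : ℝ, P.eval (ee t) ≠ 0 →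
      (F.mx (insert v S) (Function.update θ v t) i).det ≠ 0 := by
  by_cases hex : ∃ c, F.var i c = v
  swap
  · refine ⟨1, one_ne_zero, fun t _ => ?_⟩
    have h : F.mx (insert v S) (Function.update θ v t) i = F.mx S θ i := by
      ext a c
      exact F.mx_update_of_ne S θ i hv t a c fun h => hex ⟨c, h⟩
    rw [h]
    exact hdet
  -- a column without derivative
  have hex0 : ∃ c0, ¬ F.der i c0 ∧ F.var i c0 = v := by
    obtain ⟨c, hc⟩ := hex
    by_cases hd : F.der i c
    · obtain ⟨c0, h1, h2, -⟩ := F.base i c hd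
      exact ⟨c0, h1, h2.trans hc⟩
    · exact ⟨c, hd, hc⟩
  obtain ⟨c0, hd0, hc0⟩ := hex0
  set D := F.mx S θ i with hD
  have hu : IsUnit D.det := isUnit_iff_ne_zero.mpr hdet
  set E := D⁻¹ with hE
  have hED : E * D = 1 := Matrix.nonsing_inv_mul D hu
  have hDE : D * E = 1 := Matrix.mul_nonsing_inv D hu
  -- entries of the inverse at the unprocessed columns
  have hEent : ∀ a c, F.var i c = v → E a c = if a = c then 1 else 0 := by
    intro a c hc
    have h1 : (E * D) a c = E a c := by
      rw [Matrix.mul_apply, Finset.sum_eq_single c]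
      · rw [hD, F.mx_of_eq S θ i hv c c hc, if_pos rfl, mul_one]
      · intro b _ hb
        rw [hD, F.mx_of_eq S θ i hv b c hc, if_neg hb, mul_zero]
      · intro h
        exact absurd (Finset.mem_univ c) h
    rw [← h1, hED, Matrix.one_apply]
  -- polynomials
  set w : F.C i → F.C i → ℂ := fun c a => E c a * F.s i a c0 with hw
  have hcoef : ∀ c c', (hc' : F.var i c' = v) → F.s i c' c0 ≠ 0 →
      (poly (F.m i) (w c)).coeff (nu (F.m i) c') = (if c = c' then 1 else 0) * F.s i c' c0 := by
    intro c c' hc' hs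
    rw [poly_coeff_eq]
    · rw [hw]
      simp only
      rw [hEent c c' hc']
    · intro a ha hm
      apply F.inj i c0 a c' _ hs hm
      intro h
      apply ha
      rw [hw]
      simp only [h, mul_zero]
  have hs00 := F.diag i c0
  -- the left kernel
  have ker : ∀ (t : ℝ) (l : F.C i → ℂ), Matrix.vecMul l (F.mx (insert v S) (Function.update θ v t) i) = 0 →
      (∀ c, F.var i c ≠ v → Matrix.vecMul l D c = 0) := by
    intro t l hl c hc
    have h1 : Matrix.vecMul l (F.mx (insert v S) (Function.update θ v t) i) c = 0 := by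
      rw [hl]; rfl
    rw [← h1, vecMul_app, vecMul_app]
    exact Finset.sum_congr rfl fun a _ => by rw [F.mx_update_of_ne S θ i hv t a c hc]
  have back : ∀ l : F.C i → ℂ, l = Matrix.vecMul (Matrix.vecMul l D) E := by
    intro l
    rw [Matrix.vecMul_vecMul, hDE, Matrix.vecMul_one]
  by_cases hex1 : ∃ c1, F.der i c1 ∧ F.var i c1 = v
  · obtain ⟨c1, hd1, hc1⟩ := hex1
    have hne : c0 ≠ c1 := fun h => hd0 (h ▸ hd1)
    obtain ⟨c0', hd0', hv0', κ, hκ⟩ := F.base i c1 hd1
    have h00 : c0' = c0 := F.col i c0' c0 (by rw [hv0', hc1, hc0]) (by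
      constructor
      · intro h; exact absurd h hd0'
      · intro h; exact absurd h hd0)
    subst h00
    have hs10 : F.s i c1 c0' ≠ 0 := by
      intro h
      apply F.diag i c1
      rw [hκ, h, mul_zero]
    have hκ0 : κ ≠ 0 := by
      intro h
      apply F.diag i c1
      rw [hκ, h, zero_mul]
    -- only these two columns
    have honly : ∀ c, F.var i c = v → c = c0' ∨ c = c1 := by
      intro c hc
      by_cases hd : F.der i c
      · right
        exact F.col i c c1 (hc.trans hc1.symm) ⟨fun _ => hd1, fun _ => hd⟩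
      · left
        exact F.col i c c0' (hc.trans hc0.symm) ⟨fun h => absurd h hd, fun h => absurd h hd0⟩
    set F0 := poly (F.m i) (w c0') with hF0
    set F1 := poly (F.m i) (w c1) with hF1
    set G0 := poly (F.m i) (fun a => w c0' a * (F.m i a : ℂ)) with hG0
    set G1 := poly (F.m i) (fun a => w c1 a * (F.m i a : ℂ)) with hG1
    refine ⟨F0 * G1 - G0 * F1, ?_, ?_⟩
    · apply wr_ne_zero (sh (F.m i) : ℂ) (fun k => poly_mul_coeff (F.m i) (w c0') k)
        (fun k => poly_mul_coeff (F.m i) (w c1) k) (l := nu (F.m i) c1)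
      · intro h
        have h1 := hcoef c0' c0' hc0 hs00
        rw [h, coeff_zero, if_pos rfl, one_mul] at h1
        exact hs00 h1.symm
      · rw [hcoef c0' c1 hc1 hs10, if_neg hne, zero_mul]
      · rw [hcoef c1 c1 hc1 hs10, if_pos rfl, one_mul]
        exact hs10
    · intro t ht hdet0
      obtain ⟨l, hl0, hl⟩ := Matrix.exists_vecMul_eq_zero_iff.mpr hdet0
      have hk := ker t l hl
      set μ := Matrix.vecMul l D with hμ
      have hlE : ∀ a, l a = μ c0' * E c0' a + μ c1 * E c1 a := by
        intro a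
        have h1 : l a = Matrix.vecMul μ E a := by rw [hμ, ← back l]
        rw [h1, vecMul_app]
        rw [← Finset.sum_subset (Finset.subset_univ ({c0', c1} : Finset (F.C i)))]
        · rw [Finset.sum_pair hne]
        · intro c _ hc
          have : μ c = 0 := by
            apply hk c
            intro h
            rcases honly c h with h1 | h1 <;> simp [h1] at hc
          rw [this, zero_mul]
      -- the two equations
      have ee0 : μ c0' * ∑ a, w c0' a * ee (t * (F.m i a : ℝ)) +
          μ c1 * ∑ a, w c1 a * ee (t * (F.m i a : ℝ)) = 0 := by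
        have h1 : Matrix.vecMul l (F.mx (insert v S) (Function.update θ v t) i) c0' = 0 := by
          rw [hl]; rfl
        rw [← h1, vecMul_app]
        rw [Finset.mul_sum, Finset.mul_sum, ← Finset.sum_add_distrib]
        refine Finset.sum_congr rfl fun a _ => ?_
        rw [F.mx_update_of_eq S θ i t a c0' hc0, if_neg hd0, hlE a, hw]
        ring
      have ee1 : μ c0' * ∑ a, (w c0' a * (F.m i a : ℂ)) * ee (t * (F.m i a : ℝ)) +
          μ c1 * ∑ a, (w c1 a * (F.m i a : ℂ)) * ee (t * (F.m i a : ℝ)) = 0 := by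
        have h1 : Matrix.vecMul l (F.mx (insert v S) (Function.update θ v t) i) c1 = 0 := by
          rw [hl]; rfl
        have h2 : κ * (μ c0' * ∑ a, (w c0' a * (F.m i a : ℂ)) * ee (t * (F.m i a : ℝ)) +
          μ c1 * ∑ a, (w c1 a * (F.m i a : ℂ)) * ee (t * (F.m i a : ℝ))) = 0 := by
          rw [← h1, vecMul_app]
          rw [Finset.mul_sum, Finset.mul_sum, ← Finset.sum_add_distrib, Finset.mul_sum]
          refine Finset.sum_congr rfl fun a _ => ?_
          rw [F.mx_update_of_eq S θ i t a c1 hc1, if_pos hd1, hlE a, hκ a, hw]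
          ring
        exact (mul_eq_zero.mp h2).resolve_left hκ0
      -- multiply by the unit
      have q0 : μ c0' * F0.eval (ee t) + μ c1 * F1.eval (ee t) = 0 := by
        rw [hF0, hF1, poly_eval, poly_eval]
        calc _ = ee t ^ (sh (F.m i)) * (μ c0' * ∑ a, w c0' a * ee (t * (F.m i a : ℝ)) +
          μ c1 * ∑ a, w c1 a * ee (t * (F.m i a : ℝ))) := by ring
          _ = 0 := by rw [ee0, mul_zero]
      have q1 : μ c0' * G0.eval (ee t) + μ c1 * G1.eval (ee t) = 0 := by
        rw [hG0, hG1, poly_eval, poly_eval]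
        calc _ = ee t ^ (sh (F.m i)) * (μ c0' * ∑ a, (w c0' a * (F.m i a : ℂ)) * ee (t * (F.m i a : ℝ)) +
          μ c1 * ∑ a, (w c1 a * (F.m i a : ℂ)) * ee (t * (F.m i a : ℝ))) := by ring
          _ = 0 := by rw [ee1, mul_zero]
      rw [eval_sub, eval_mul, eval_mul] at ht
      have z0 : μ c0' = 0 := by
        have h1 : μ c0' * (F0.eval (ee t) * G1.eval (ee t) - G0.eval (ee t) * F1.eval (ee t)) = 0 := by
          linear_combination G1.eval (ee t) * q0 - F1.eval (ee t) * q1
        exact (mul_eq_zero.mp h1).resolve_right ht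
      have z1 : μ c1 = 0 := by
        have h1 : μ c1 * (F0.eval (ee t) * G1.eval (ee t) - G0.eval (ee t) * F1.eval (ee t)) = 0 := by
          linear_combination F0.eval (ee t) * q1 - G0.eval (ee t) * q0
        exact (mul_eq_zero.mp h1).resolve_right ht
      apply hl0
      funext a
      rw [hlE a, z0, z1, zero_mul, zero_mul, add_zero]
      rfl
  · -- a single column
    have honly : ∀ c, F.var i c = v → c = c0 := by
      intro c hc
      have hd : ¬ F.der i c := fun h => hex1 ⟨c, h, hc⟩
      exact F.col i c c0 (hc.trans hc0.symm) ⟨fun h => absurd h hd, fun h => absurd h hd0⟩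
    refine ⟨poly (F.m i) (w c0), ?_, ?_⟩
    · intro h
      have h1 := hcoef c0 c0 hc0 hs00
      rw [h, coeff_zero, if_pos rfl, one_mul] at h1
      exact hs00 h1.symm
    · intro t ht hdet0
      obtain ⟨l, hl0, hl⟩ := Matrix.exists_vecMul_eq_zero_iff.mpr hdet0
      have hk := ker t l hl
      set μ := Matrix.vecMul l D with hμ
      have hlE : ∀ a, l a = μ c0 * E c0 a := by
        intro a
        have h1 : l a = Matrix.vecMul μ E a := by rw [hμ, ← back l]
        rw [h1, vecMul_app]
        rw [Finset.sum_eq_single c0]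
        · intro c _ hc
          rw [hk c (fun h => hc (honly c h)), zero_mul]
        · intro h
          exact absurd (Finset.mem_univ c0) h
      have ee0 : μ c0 * ∑ a, w c0 a * ee (t * (F.m i a : ℝ)) = 0 := by
        have h1 : Matrix.vecMul l (F.mx (insert v S) (Function.update θ v t) i) c0 = 0 := by
          rw [hl]; rfl
        rw [← h1, vecMul_app]
        rw [Finset.mul_sum]
        refine Finset.sum_congr rfl fun a _ => ?_
        rw [F.mx_update_of_eq S θ i t a c0 hc0, if_neg hd0, hlE a, hw]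
        ring
      rw [poly_eval] at ht
      have z0 : μ c0 = 0 := by
        rcases mul_eq_zero.mp ee0 with h | h
        · exact h
        · rw [h, mul_zero] at ht
          exact absurd rfl ht
      apply hl0
      funext a
      rw [hlE a, z0, zero_mul]
      rfl

/-- Genericity for finitely many matrices of exponential type at once. -/
theorem exists_theta [Finite V] [Finite ι] : ∃ θ : V → ℝ, ∀ i, (F.mat θ i).det ≠ 0 := by
  have := Fintype.ofFinite V
  have key : ∀ S : Finset V, ∃ θ : V → ℝ, ∀ i, (F.mx S θ i).det ≠ 0 := by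
    intro S
    induction S using Finset.induction_on with
    | empty =>
      refine ⟨fun _ => 0, fun i => ?_⟩
      have h : F.mx ∅ (fun _ => 0) i = 1 := by
        ext a c
        simp [mx, Matrix.one_apply]
      rw [h, Matrix.det_one]
      exact one_ne_zero
    | insert v S hv ih =>
      obtain ⟨θ, hθ⟩ := ih
      choose P hP0 hP using fun i => F.step_one S θ i hv (hθ i)
      obtain ⟨t, ht⟩ := exists_eval_ne P hP0
      exact ⟨Function.update θ v t, fun i => hP i t (ht i)⟩
  obtain ⟨θ, hθ⟩ := key Finset.univ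
  refine ⟨θ, fun i => ?_⟩
  have h : F.mx Finset.univ θ i = F.mat θ i := by
    ext a c
    simp [mx]
  rw [← h]
  exact hθ i

end Fam

end Pool.Agent.Helper31.GGen
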